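import Pool.Agent.X144.ThrMain

set_option autoImplicit false

/-!
# The gap between lower and upper thresholds is not bounded by a function of d

Full answer to Q1 of MP_cca6ac_pr (the statement is disproved). The definitions `IsDepRG`,
`RandomGraph`, `IsMonotoneProperty` and `IsThresholdPair` are in `Pool/Agent/X144/DepRG.lean` and
`Pool/Agent/X144/ThrDefs.lean`. The property is: some vertex has degree at least `2`, or there are
at least `⌈n^(1/4)⌉ + 1` edges.
-/

namespace Pool.Agent.Results.MP_cca6ac_pr.UnboundedGap

open Filter Topology Pool.Agent.X144.Thr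

/-- There is a monotone graph property `P` with a threshold pair `(L, U)` such that
`U(n,1)/L(n,1)` tends to infinity with `n`. Consequently `U(n,d)/L(n,d)` is not `O(f(d))` for any
function `f` of `d` alone: for every `f` and every constant `C`, `U(n,1)/L(n,1) > C f(1)` for all
large `n`. -/
theorem result : ∃ (P : ∀ n, SimpleGraph (Fin n) → Prop) (L U : ℕ → ℕ → ℝ),
    IsMonotoneProperty P ∧ IsThresholdPair P L U ∧
    Tendsto (fun n => U n 1 / L n 1) atTop atTop ∧
    ∀ (f : ℕ → ℝ) (C : ℝ), ∀ᶠ n in atTop, C * f 1 < U n 1 / L n 1 :=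
  ⟨PP, LL, UU, PP_mono, threshold, ratio, fun f C => ratio.eventually_gt_atTop (C * f 1)⟩

end Pool.Agent.Results.MP_cca6ac_pr.UnboundedGap
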